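import Pool.Agent.U896.SW.PubM

/-!
Forms of Morrey growth: the definitions used in the statement.
-/

set_option autoImplicit false

open Set Filter Topology MeasureTheory
open scoped Manifold ContDiff

noncomputable section

namespace Pool.Agent.U896.SVP

open Pool.Agent.Y501.SYP Pool.Agent.U896.SWP

variable {d : ℕ} {X : Type} [TopologicalSpace X] [ChartedSpace (ES d) X]

/-- Morrey growth with exponent `a`: locally in the charts, the integral of `|σ|` over a ball of
radius `t` is at most `C t ^ (d - a)`. (By Hölder's inequality, this holds if `|σ| ^ p` is locally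
integrable for some `p ≥ 1` with `d / p ≤ a`.) -/
def MorreyGrowth (a : ℝ) (σ : Form (ES d) X 2) : Prop :=
  ∀ z : X, ∀ p ∈ (chartAt (ES d) z).target, ∃ r C : ℝ, 0 < r ∧
    ∀ q ∈ Metric.ball p r, ∀ t : ℝ, 0 < t → t ≤ r →
      ∫⁻ x in Metric.ball q t, ‖pb (chartAt (ES d) z).symm σ x‖ₑ ∂(leb d) ≤
        ENNReal.ofReal (C * t ^ ((d : ℝ) - a))

/-- `J` is Hölder continuous with exponent `γ` near `x`, in the chart at `x`. -/
def HolderNear (γ : ℝ) (J : End (ES d) X) (x : X) : Prop :=
  ∃ r H : ℝ, 0 < r ∧ ∀ p ∈ Metric.ball (chartAt (ES d) x x) r,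
    ∀ q ∈ Metric.ball (chartAt (ES d) x x) r, ∀ v : ES d,
      ‖inChart J x p v - inChart J x q v‖ ≤ H * ‖p - q‖ ^ γ * ‖v‖

end Pool.Agent.U896.SVP
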