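import Pool.Agent.U896.SV.MainL
import Pool.Agent.U896.SW.FinalM
import Pool.Agent.U896.SV.PubL

/-!
# Forms of Morrey growth: the main theorem, with the public definitions
-/

set_option autoImplicit false

open Set Filter Topology MeasureTheory
open scoped Manifold ContDiff

noncomputable section

namespace Pool.Agent.U896.SVP

open Pool.Agent.Y501
open Pool.Agent.Y501.SYP
open Pool.Agent.U896.SWP

section

variable {d : ℕ} {X : Type} [TopologicalSpace X] [ChartedSpace (ES d) X]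

attribute [local instance] cs mf

theorem mor_of {a : ℝ} {σ : Form (ES d) X 2} (hM : MorreyGrowth a σ) (z : X) (p : SY.E d)
    (hp : p ∈ (chartAt (SY.E d) z).target) :
    SV.Mor (d := d) a (SY.pb (d := d) (X := X) (chartAt (SY.E d) z).symm σ) p := by
  obtain ⟨r, C, hr, h⟩ := hM z p hp
  refine ⟨r, |C|, hr, abs_nonneg _, fun q hq t ht htr => (h q hq t ht htr).trans ?_⟩
  refine ENNReal.ofReal_le_ofReal ?_
  exact mul_le_mul_of_nonneg_right (le_abs_self C) (by positivity)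

theorem hol_of {γ : ℝ} {J : End (ES d) X} {x : X} (h : HolderNear γ J x) :
    SV.Hol (d := d) (X := X) γ J x := by
  obtain ⟨r, H, hr, h⟩ := h
  refine ⟨r, |H|, hr, abs_nonneg _, fun p hp q hq => ?_⟩
  refine ContinuousLinearMap.opNorm_le_bound _ (by positivity) fun v => ?_
  refine (h p hp q hq v).trans ?_
  have h1 : H * ‖p - q‖ ^ γ ≤ |H| * ‖p - q‖ ^ γ :=
    mul_le_mul_of_nonneg_right (le_abs_self H) (by positivity)
  exact mul_le_mul_of_nonneg_right h1 (norm_nonneg _)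

theorem sobolevL [IsManifold 𝓘(ℝ, ES d) ∞ X] [CompactSpace X] [T2Space X] (hd : 0 < d)
    {a γ : ℝ} (ha : 0 ≤ a) (haγ : a < γ) (hγ : γ ≤ 1)
    (J : End (ES d) X) (hJ : IsAlmostComplex J) (K N : Set X) (hK : IsClosed K) (hNK : N ⊆ K)
    (hN : NullSet (d := d) N) (hHol : ∀ x ∈ K, HolderNear γ J x)
    (σ : Form (ES d) X 2) (hσ : ClosedOff σ K) (hi : LocInt σ)
    (hw : WeaklyClosed σ) (hM : MorreyGrowth a σ)
    (hpos : ∀ x, x ∉ N → ∀ v : TangentSpace 𝓘(ℝ, ES d) x, 0 ≤ qd σ J x v)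
    (hsmall : ∀ z ∈ Crit σ J N, SmallAll J (connectedComponentIn (Crit σ J N) z) z)
    (U : Set X) (hU : IsOpen U) (hKU : K ⊆ U) :
    ∃ (α : Form (ES d) X 1) (η w : Form (ES d) X 2), IsSmooth α ∧ IsSmooth η ∧ IsD α η ∧
      IsTamingSymplectic w J ∧ ∀ x, x ∉ U → w x = addF σ η x := by
  obtain ⟨α, η, w, h1, h2, h3, h4, h5, h6, h7⟩ := SV.mainL (d := d) (X := X) ha haγ hγ hd
    Pool.Agent.Y44.SY.t_IMM Pool.Agent.Y44.SY.t_QB Pool.Agent.Y394.SY.t_SM
    Pool.Agent.Y949.SY.t_PATCH2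
    (J := J) (ac_of J hJ) (K := K) (N := N) hK hNK hN (σ := σ)
    (fun V φ hV hφ hp => (hσ V φ ⟨hV, hφ⟩ hp).1)
    (fun V φ hV hφ hp p hpV => (hσ V φ ⟨hV, hφ⟩ hp).2 p hpV)
    (lc_of hi hw) (mor_of hM) (fun x hx => hol_of (hHol x hx))
    hpos (fun z hz => smallAll_of hJ (hsmall z hz)) hU hKU
  exact ⟨α, η, w, (smooth_iff α).2 h1, (smooth_iff η).2 h2, (isD_iff α η).2 h3,
    symp_of ((smooth_iff w).2 h4) ((closed_iff w).2 h5) h6, h7⟩

end

end Pool.Agent.U896.SVP
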