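import Pool.Agent.U896.SW.AvC

/-!
# Forms of Morrey growth: the averages
-/

set_option autoImplicit false

open Set Filter Topology MeasureTheory
open scoped Manifold ContDiff ENNReal

noncomputable section

namespace Pool.Agent.U896.SV

open Pool.Agent.Y501.SY (E Moll S_SM)
open Pool.Agent.Y515.SY
open Pool.Agent.U896
open Pool.Agent.U896.SE hiding sq aff_null
open Pool.Agent.U896.SW

variable {d : ℕ}

/-- mollifiers with a bound -/
theorem moll_bd : ∃ A : ℝ, 0 < A ∧ ∀ ε : ℝ, 0 < ε →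
    ∃ ρ : E d → ℝ, Moll ε ρ ∧ ∀ y, ρ y ≤ A * (ε⁻¹) ^ d := by
  obtain ⟨ρ₁, h₁⟩ := moll_exists (d := d) one_pos
  obtain ⟨A₀, hA₀⟩ := h₁.smooth.continuous.bounded_above_of_compact_support (moll_cs h₁)
  refine ⟨max A₀ 1, lt_max_of_lt_right one_pos, fun ε hε => ?_⟩
  refine ⟨fun y => (ε⁻¹) ^ d * ρ₁ (ε⁻¹ • y), ⟨?_, ?_, ?_, ?_⟩, ?_⟩
  · exact contDiff_const.mul (h₁.smooth.comp (contDiff_const_smul ε⁻¹))
  · intro y
    exact mul_nonneg (by positivity) (h₁.nonneg _)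
  · intro y hy
    have h2 : 1 ≤ ‖ε⁻¹ • y‖ := by
      rw [norm_smul, Real.norm_of_nonneg (by positivity), inv_mul_eq_div, le_div_iff₀ hε, one_mul]
      exact hy
    change (ε⁻¹) ^ d * ρ₁ (ε⁻¹ • y) = 0
    rw [h₁.supp _ h2, mul_zero]
  · rw [integral_const_mul, Measure.integral_comp_smul, finrank_euclideanSpace_fin, h₁.int,
      abs_of_nonneg (by positivity), smul_eq_mul, mul_one, mul_inv_cancel₀ (by positivity)]
  · intro y
    have h2 : ρ₁ (ε⁻¹ • y) ≤ max A₀ 1 :=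
      (le_abs_self _).trans ((hA₀ _).trans (le_max_left _ _))
    change (ε⁻¹) ^ d * ρ₁ (ε⁻¹ • y) ≤ max A₀ 1 * (ε⁻¹) ^ d
    rw [mul_comm]
    exact mul_le_mul_of_nonneg_right h2 (by positivity)

theorem av_bd {ρ : E d → ℝ} {ε A : ℝ} (hA0 : 0 ≤ A) (hρ : Moll ε ρ)
    (hA : ∀ y, ρ y ≤ A * (ε⁻¹) ^ d) {Φ : E d → Al d 2} (hΦ : Integrable Φ) {p : E d} {c : ℝ}
    (hε : 0 < ε) (hc : 0 < c) {B : ℝ} (hB0 : 0 ≤ B)
    (hB : ∫⁻ x in Metric.ball p (c * ε), ‖Φ x‖ₑ ≤ ENNReal.ofReal B) :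
    ∫ y, ρ y * ‖Φ (p + c • y)‖ ≤ A * ((c * ε)⁻¹) ^ d * B := by
  obtain ⟨f, hf⟩ : ∃ f : E d → ℝ, f = (Metric.ball p (c * ε)).indicator fun x => ‖Φ x‖ := ⟨_, rfl⟩
  have hfi : Integrable f := by
    rw [hf]
    exact hΦ.norm.indicator Metric.isOpen_ball.measurableSet
  have hf0 : ∀ x, 0 ≤ f x := by
    intro x
    rw [hf]
    exact indicator_nonneg (fun _ _ => norm_nonneg _) x
  have hint : ∫ x, f x ≤ B := by
    rw [hf, integral_indicator Metric.isOpen_ball.measurableSet,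
      integral_norm_eq_lintegral_enorm hΦ.aestronglyMeasurable.restrict]
    exact ENNReal.toReal_le_of_le_ofReal hB0 hB
  have h1 : ∀ y, ρ y * ‖Φ (p + c • y)‖ ≤ A * (ε⁻¹) ^ d * f (p + c • y) := by
    intro y
    by_cases hy : ‖y‖ < ε
    · have h2 : p + c • y ∈ Metric.ball p (c * ε) := by
        rw [Metric.mem_ball, dist_eq_norm, add_sub_cancel_left, norm_smul,
          Real.norm_of_nonneg hc.le]
        exact mul_lt_mul_of_pos_left hy hc
      rw [hf, indicator_of_mem h2]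
      exact mul_le_mul_of_nonneg_right (hA y) (norm_nonneg _)
    · rw [hρ.supp y (not_lt.1 hy), zero_mul]
      exact mul_nonneg (by positivity) (hf0 _)
  have hi1 : Integrable (fun y => A * (ε⁻¹) ^ d * f (p + c • y)) :=
    (aff_int hfi p hc.ne').const_mul _
  have h2 : ∫ y, ρ y * ‖Φ (p + c • y)‖ ≤ ∫ y, A * (ε⁻¹) ^ d * f (p + c • y) :=
    integral_mono_of_nonneg (Eventually.of_forall fun y =>
      mul_nonneg (hρ.nonneg y) (norm_nonneg _)) hi1 (Eventually.of_forall h1)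
  have h3 : ∫ y, f (p + c • y) = (c ^ d)⁻¹ * ∫ x, f x := by
    have h4 := Measure.integral_comp_smul (volume : Measure (E d)) (fun x => f (p + x)) c
    rw [finrank_euclideanSpace_fin, abs_of_nonneg (by positivity), smul_eq_mul,
      integral_add_left_eq_self f p] at h4
    exact h4
  refine h2.trans ?_
  rw [integral_const_mul, h3]
  calc A * (ε⁻¹) ^ d * ((c ^ d)⁻¹ * ∫ x, f x) ≤ A * (ε⁻¹) ^ d * ((c ^ d)⁻¹ * B) := by gcongr
    _ = A * ((c * ε)⁻¹) ^ d * B := by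
        rw [mul_inv, mul_pow, inv_pow, inv_pow]
        ring

/-- the lower bound of the averages -/
theorem JJ_lbL {ρ χ : E d → ℝ} {ε : ℝ} (hρ : Moll ε ρ) {Φ : E d → Al d 2}
    (hΦ : Integrable Φ) {Js : E d → (E d →L[ℝ] E d)} {c D κ : ℝ} (hc : 0 < c)
    (hε : 0 ≤ ε) (hκ0 : 0 ≤ κ) {p : E d} (hp : 0 < χ p) (hD : ‖fderiv ℝ χ p‖ ≤ D)
    (hDε : D * ε ≤ 1 / 2)
    (hκ : 2 * κ * (∫ y, ρ y * ‖Φ (p + χ p • y)‖) ≤ c / 8)
    (hpos : ∀ᵐ y : E d, ‖y‖ < ε →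
      ‖(LL (fderiv ℝ χ p) y).comp (Js p) - (Js (p + χ p • y)).comp (LL (fderiv ℝ χ p) y)‖ ≤ κ ∧
      ∀ v : E d, c * ‖v‖ ^ 2 ≤ Φ (p + χ p • y) ![v, Js (p + χ p • y) v]) (v : E d) :
    c / 8 * ‖v‖ ^ 2 ≤ JJ ρ χ Φ p ![v, Js p v] := by
  have hD0 : 0 ≤ D := (norm_nonneg _).trans hD
  have hρc := moll_cs hρ
  have hn : Integrable (fun q => ‖Φ q‖) := hΦ.norm
  have hA : Integrable (fun y => ρ y * ‖Φ (p + χ p • y)‖) :=
    II_int' (χ := χ) hρ.smooth.continuous hρc hn hp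
  have h1 := JJ_apply_int' (χ := χ) hρ.smooth.continuous hρc hΦ hp v (Js p v)
  rw [JJ_apply' hρ.smooth.continuous hρc hΦ hp]
  have hlow : Integrable (fun y => ρ y * (c / 4 * ‖v‖ ^ 2) -
      2 * κ * ‖v‖ ^ 2 * (ρ y * ‖Φ (p + χ p • y)‖)) :=
    ((moll_int hρ).mul_const _).sub (hA.const_mul _)
  have hae : ∀ᵐ y : E d, ρ y * (c / 4 * ‖v‖ ^ 2) -
      2 * κ * ‖v‖ ^ 2 * (ρ y * ‖Φ (p + χ p • y)‖) ≤
      ρ y * Φ (p + χ p • y) ![v + fderiv ℝ χ p v • y, Js p v + fderiv ℝ χ p (Js p v) • y] := by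
    filter_upwards [hpos] with y hy
    by_cases hyε : ‖y‖ < ε
    · obtain ⟨h2, h3⟩ := hy hyε
      obtain ⟨q, hq⟩ : ∃ q, q = p + χ p • y := ⟨_, rfl⟩
      rw [← hq] at h2 h3 ⊢
      obtain ⟨T, hT⟩ : ∃ T, T = LL (fderiv ℝ χ p) y := ⟨_, rfl⟩
      rw [← hT] at h2
      have hT1 : v + fderiv ℝ χ p v • y = T v := by rw [hT]; rfl
      have hT2 : Js p v + fderiv ℝ χ p (Js p v) • y = T (Js p v) := by rw [hT]; rfl
      rw [hT1, hT2]
      have hTv : ‖T v - v‖ ≤ 1 / 2 * ‖v‖ := by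
        have h4 : T v - v = fderiv ℝ χ p v • y := by rw [← hT1, add_sub_cancel_left]
        rw [h4, norm_smul]
        calc ‖fderiv ℝ χ p v‖ * ‖y‖ ≤ (D * ‖v‖) * ε := by
              refine mul_le_mul ?_ hyε.le (norm_nonneg _) (by positivity)
              exact (ContinuousLinearMap.le_opNorm _ _).trans
                (mul_le_mul_of_nonneg_right hD (norm_nonneg _))
          _ = D * ε * ‖v‖ := by ring
          _ ≤ 1 / 2 * ‖v‖ := by gcongr
      have hTu : ‖T v‖ ≤ 2 * ‖v‖ := by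
        have := norm_sub_norm_le (T v) v
        have := norm_nonneg v
        linarith
      have hTl : ‖v‖ / 2 ≤ ‖T v‖ := by
        have h4 := norm_sub_norm_le v (T v)
        rw [norm_sub_rev] at h4
        linarith
      have hdec : Φ q ![T v, T (Js p v)] = Φ q ![T v, Js q (T v)] +
          Φ q ![T v, T (Js p v) - Js q (T v)] := by
        have h4 := (Φ q).map_update_add ![T v, 0] 1 (Js q (T v)) (T (Js p v) - Js q (T v))
        have h5 : ∀ w : E d, Function.update ![T v, 0] 1 w = ![T v, w] := by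
          intro w
          funext i
          fin_cases i <;> simp
        rw [h5, h5, h5, add_sub_cancel] at h4
        exact h4
      have hb : |Φ q ![T v, T (Js p v) - Js q (T v)]| ≤ ‖Φ q‖ * (2 * ‖v‖) * (κ * ‖v‖) := by
        have h4 := (Φ q).le_opNorm ![T v, T (Js p v) - Js q (T v)]
        rw [Fin.prod_univ_two] at h4
        have h5 : ‖T (Js p v) - Js q (T v)‖ ≤ κ * ‖v‖ := by
          have h6 := ((T.comp (Js p)) - ((Js q).comp T)).le_opNorm v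
          exact h6.trans (mul_le_mul_of_nonneg_right h2 (norm_nonneg _))
        have h7 : ‖Φ q‖ * (‖(![T v, T (Js p v) - Js q (T v)] : Fin 2 → E d) 0‖ *
            ‖(![T v, T (Js p v) - Js q (T v)] : Fin 2 → E d) 1‖) ≤
            ‖Φ q‖ * (2 * ‖v‖ * (κ * ‖v‖)) := by
          refine mul_le_mul_of_nonneg_left ?_ (norm_nonneg _)
          exact mul_le_mul hTu h5 (norm_nonneg _) (by positivity)
        rw [Real.norm_eq_abs] at h4
        calc _ ≤ _ := h4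
          _ ≤ _ := h7
          _ = _ := by ring
      have hlow1 : c / 4 * ‖v‖ ^ 2 ≤ Φ q ![T v, Js q (T v)] := by
        refine le_trans ?_ (h3 (T v))
        have h4 : (‖v‖ / 2) ^ 2 ≤ ‖T v‖ ^ 2 := pow_le_pow_left₀ (by positivity) hTl 2
        calc c / 4 * ‖v‖ ^ 2 = c * (‖v‖ / 2) ^ 2 := by ring
          _ ≤ _ := by gcongr
      rw [hdec]
      have h8 := (abs_le.1 hb).1
      have h9 := hρ.nonneg y
      have h10 : c / 4 * ‖v‖ ^ 2 - 2 * κ * ‖v‖ ^ 2 * ‖Φ q‖ ≤ Φ q ![T v, Js q (T v)] +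
          Φ q ![T v, T (Js p v) - Js q (T v)] := by nlinarith
      calc ρ y * (c / 4 * ‖v‖ ^ 2) - 2 * κ * ‖v‖ ^ 2 * (ρ y * ‖Φ q‖)
          = ρ y * (c / 4 * ‖v‖ ^ 2 - 2 * κ * ‖v‖ ^ 2 * ‖Φ q‖) := by ring
        _ ≤ _ := mul_le_mul_of_nonneg_left h10 h9
    · rw [hρ.supp y (not_lt.1 hyε)]
      simp
  have h2 := integral_mono_ae hlow h1 hae
  refine le_trans ?_ h2
  rw [integral_sub ((moll_int hρ).mul_const _) (hA.const_mul _), integral_mul_const, hρ.int,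
    integral_const_mul, one_mul]
  have h3 : 2 * κ * ‖v‖ ^ 2 * (∫ y, ρ y * ‖Φ (p + χ p • y)‖) ≤ c / 8 * ‖v‖ ^ 2 := by
    calc 2 * κ * ‖v‖ ^ 2 * (∫ y, ρ y * ‖Φ (p + χ p • y)‖)
        = (2 * κ * (∫ y, ρ y * ‖Φ (p + χ p • y)‖)) * ‖v‖ ^ 2 := by ring
      _ ≤ _ := by gcongr
  linarith

theorem av_lint2 {ρ χ : E d → ℝ} {ε D θ : ℝ} (hρ : Moll ε ρ) (hχ : ContDiff ℝ ∞ χ)
    (hD : ∀ p, ‖fderiv ℝ χ p‖ ≤ D) (hDε : D * ε < 1) (hθ : D * ε ≤ θ)
    (hdet : ∀ A : E d →L[ℝ] E d, ‖A - ContinuousLinearMap.id ℝ (E d)‖ ≤ θ → 1 / 2 ≤ |A.det|)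
    {B : Set (E d)} {O : E d → Set (E d)} (hB : IsOpen B)
    (hBO : ∀ p ∈ B, ∀ y, ‖y‖ ≤ ε → p + χ p • y ∈ O y)
    {f : E d → ℝ≥0∞} (hf : Measurable f) {M : ℝ≥0∞}
    (hM : ∀ y, ‖y‖ ≤ ε → ∫⁻ x in O y, f x ≤ M) :
    ∫⁻ p in B, ∫⁻ y, ENNReal.ofReal (ρ y) * f (p + χ p • y) ≤ 2 * M := by
  have hD0 : 0 ≤ D := (norm_nonneg _).trans (hD 0)
  have hm : Measurable (fun q : E d × E d => ENNReal.ofReal (ρ q.2) * f (q.1 + χ q.1 • q.2)) := by
    have h1 : Continuous (fun q : E d × E d => q.1 + χ q.1 • q.2) :=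
      continuous_fst.add ((hχ.continuous.comp continuous_fst).smul continuous_snd)
    have h2 : Measurable (fun q : E d × E d => ENNReal.ofReal (ρ q.2)) :=
      (hρ.smooth.continuous.comp continuous_snd).measurable.ennreal_ofReal
    exact h2.mul (hf.comp h1.measurable)
  rw [lintegral_lintegral_swap hm.aemeasurable]
  have hin : ∀ y, ∫⁻ p in B, ENNReal.ofReal (ρ y) * f (p + χ p • y) ≤
      ENNReal.ofReal (ρ y) * (2 * M) := by
    intro y
    by_cases hy : ‖y‖ ≤ ε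
    · rw [lintegral_const_mul' _ _ ENNReal.ofReal_ne_top]
      refine mul_le_mul_right ?_ _
      have hfd : ∀ p, fderiv ℝ (fun p => p + χ p • y) p = LL (fderiv ℝ χ p) y := fun p =>
        (TT_deriv hχ y p).fderiv
      have h1 := lint_pull (O := O y) (O' := B) (ψ := fun p => p + χ p • y) hB
        (fun q _ => by rw [hfd]; exact TT_deriv hχ y q) (fun p hp => hBO p hp y hy)
        ((TT_inj hχ hD hDε hy).injOn) (μ := 1 / 2) (by norm_num) (fun q _ => by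
          rw [hfd]
          apply hdet
          have h2 : LL (fderiv ℝ χ q) y - ContinuousLinearMap.id ℝ (E d) =
            (fderiv ℝ χ q).smulRight y := by
            unfold LL
            rw [add_sub_cancel_left]
          rw [h2, ContinuousLinearMap.norm_smulRight_apply]
          exact (mul_le_mul (hD q) hy (norm_nonneg _) hD0).trans hθ) f
      refine h1.trans ?_
      have h3 : ENNReal.ofReal (1 / 2)⁻¹ = 2 := by norm_num
      rw [h3]
      exact mul_le_mul_right (hM y hy) _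
    · have h1 : ρ y = 0 := hρ.supp y (not_le.1 hy).le
      rw [h1, ENNReal.ofReal_zero]
      simp
  refine (lintegral_mono hin).trans (le_of_eq ?_)
  rw [lintegral_mul_const _ hρ.smooth.continuous.measurable.ennreal_ofReal, moll_lint hρ, one_mul]

/-- the masses of the averages in balls -/
theorem JJ_ball {ρ χ : E d → ℝ} {ε D θ : ℝ} (hε : 0 ≤ ε) (hρ : Moll ε ρ) (hχ : ContDiff ℝ ∞ χ)
    (hχ0 : ∀ p, 0 < χ p ∨ (χ p = 0 ∧ fderiv ℝ χ p = 0))
    (hD : ∀ p, ‖fderiv ℝ χ p‖ ≤ D) (hDε : D * ε < 1) (hθ : D * ε ≤ θ)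
    (hdet : ∀ A : E d →L[ℝ] E d, ‖A - ContinuousLinearMap.id ℝ (E d)‖ ≤ θ → 1 / 2 ≤ |A.det|)
    {Φ : E d → Al d 2} (hΦ : Integrable Φ) {q : E d} {t : ℝ} {M : ℝ≥0∞}
    (hM : ∀ y, ‖y‖ ≤ ε → ∫⁻ x in Metric.ball (q + χ q • y) (2 * t), ‖Φ x‖ₑ ≤ M) :
    ∫⁻ p in Metric.ball q t, ‖JJ ρ χ Φ p‖ₑ ≤ 8 * M := by
  have hD0 : 0 ≤ D := (norm_nonneg _).trans (hD 0)
  obtain ⟨f, hfm, hf⟩ := hΦ.aestronglyMeasurable.enorm
  obtain ⟨A, hA⟩ : ∃ A, A = {p | ‖Φ p‖ₑ ≠ f p} := ⟨_, rfl⟩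
  have hA0 : volume A = 0 := by rw [hA]; exact hf
  have hAf : ∀ p, p ∉ A → ‖Φ p‖ₑ = f p := by
    intro p hp
    by_contra h
    exact hp (by rw [hA]; exact h)
  have hz : Integrable (fun _ : E d => (0 : Al d 2)) volume :=
    (integrable_zero (E d) (Al d 2) volume).congr (Eventually.of_forall fun _ => rfl)
  have h1 : ∀ᵐ p : E d, ‖JJ ρ χ Φ p‖ₑ ≤ ENNReal.ofReal ((1 + D * ε) ^ 2) *
      ∫⁻ y, ENNReal.ofReal (ρ y) * f (p + χ p • y) := by
    filter_upwards [measure_eq_zero_iff_ae_notMem.1 hA0] with p hpA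
    have h2 := JJ_pt hε hρ (hD p) (hχ0 p) hΦ hz
    simp only [JJ_zero, sub_zero] at h2
    refine h2.trans (le_of_eq ?_)
    congr 1
    refine lintegral_congr_ae ?_
    rcases hχ0 p with hp | ⟨hp, -⟩
    · filter_upwards [Pool.Agent.Y515.SY.aff_null hA0 p hp.ne'] with y hy
      rw [hAf _ hy]
    · refine Eventually.of_forall fun y => ?_
      simp only [hp, zero_smul, add_zero]
      rw [hAf _ hpA]
  have hmap : ∀ p ∈ Metric.ball q t, ∀ y, ‖y‖ ≤ ε →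
      p + χ p • y ∈ Metric.ball (q + χ q • y) (2 * t) := by
    intro p hp y hy
    rw [Metric.mem_ball, dist_eq_norm] at hp ⊢
    have h2 : ‖χ p - χ q‖ ≤ D * ‖p - q‖ :=
      Convex.norm_image_sub_le_of_norm_fderiv_le (𝕜 := ℝ)
        (fun x _ => hχ.differentiable (by simp) x) (fun x _ => hD x) convex_univ
        (mem_univ q) (mem_univ p)
    have h3 : p + χ p • y - (q + χ q • y) = (p - q) + (χ p - χ q) • y := by
      rw [sub_smul]
      abel
    rw [h3]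
    refine (norm_add_le _ _).trans_lt ?_
    rw [norm_smul]
    have h4 : ‖χ p - χ q‖ * ‖y‖ ≤ (D * ‖p - q‖) * ε := mul_le_mul h2 hy (norm_nonneg _)
      (by positivity)
    have h5 : (D * ‖p - q‖) * ε ≤ ‖p - q‖ := by
      have := norm_nonneg (p - q)
      nlinarith
    linarith
  calc ∫⁻ p in Metric.ball q t, ‖JJ ρ χ Φ p‖ₑ
      ≤ ∫⁻ p in Metric.ball q t, ENNReal.ofReal ((1 + D * ε) ^ 2) *
        ∫⁻ y, ENNReal.ofReal (ρ y) * f (p + χ p • y) := lintegral_mono_ae (ae_restrict_of_ae h1)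
    _ = ENNReal.ofReal ((1 + D * ε) ^ 2) *
        ∫⁻ p in Metric.ball q t, ∫⁻ y, ENNReal.ofReal (ρ y) * f (p + χ p • y) :=
        lintegral_const_mul' _ _ ENNReal.ofReal_ne_top
    _ ≤ 4 * (2 * M) := by
        refine mul_le_mul' ?_ (av_lint2 hρ hχ hD hDε hθ hdet Metric.isOpen_ball hmap hfm
          fun y hy => ?_)
        · have h2 : (1 + D * ε) ^ 2 ≤ 4 := by
            have : 0 ≤ D * ε := by positivity
            nlinarith
          refine (ENNReal.ofReal_le_ofReal h2).trans (le_of_eq ?_)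
          norm_num
        · refine le_trans (le_of_eq ?_) (hM y hy)
          exact (lintegral_congr_ae (ae_restrict_of_ae hf)).symm
    _ = 8 * M := by
        rw [← mul_assoc]
        norm_num

end Pool.Agent.U896.SV
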