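import Pool.Agent.U896.SW.MainM

/-!
# Forms of Morrey growth
-/

set_option autoImplicit false

open Set Filter Topology MeasureTheory
open scoped Manifold ContDiff ENNReal

noncomputable section

namespace Pool.Agent.U896.SV

open Pool.Agent.Y501.SY
open Pool.Agent.Y515.SY (comp_norm)
open Pool.Agent.U896.SW

section loc

variable {d : ℕ}

/-- the integrals of the norm of `s` over the balls of radius `t` near `p` are at most
`C t ^ (d - a)` -/
def Mor (a : ℝ) (s : E d → (E d) [⋀^Fin 2]→L[ℝ] ℝ) (p : E d) : Prop :=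
  ∃ r C : ℝ, 0 < r ∧ 0 ≤ C ∧ ∀ q ∈ Metric.ball p r, ∀ t : ℝ, 0 < t → t ≤ r →
    ∫⁻ x in Metric.ball q t, ‖s x‖ₑ ≤ ENNReal.ofReal (C * t ^ ((d : ℝ) - a))

theorem Mor.congr {a : ℝ} {s s' : E d → (E d) [⋀^Fin 2]→L[ℝ] ℝ} {p : E d} {R : ℝ} (hR : 0 < R)
    (h : Mor a s p) (hs : ∀ q ∈ Metric.ball p R, s' q = s q) : Mor a s' p := by
  obtain ⟨r, C, hr, hC, h1⟩ := h
  refine ⟨min r (R / 2), C, lt_min hr (by positivity), hC, fun q hq t ht htr => ?_⟩
  have hq1 : q ∈ Metric.ball p r := Metric.ball_subset_ball (min_le_left _ _) hq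
  have hq2 : dist q p < R / 2 := lt_of_lt_of_le (Metric.mem_ball.1 hq) (min_le_right _ _)
  have ht2 : t ≤ R / 2 := htr.trans (min_le_right _ _)
  refine le_trans (le_of_eq ?_) (h1 q hq1 t ht (htr.trans (min_le_left _ _)))
  refine setLIntegral_congr_fun Metric.isOpen_ball.measurableSet fun x hx => ?_
  have hx' : x ∈ Metric.ball p R := by
    rw [Metric.mem_ball] at hx ⊢
    have := dist_triangle x q p
    linarith
  simp only [hs x hx']

theorem ball_bd {a : ℝ} (ha : 0 ≤ a) {s : E d → (E d) [⋀^Fin 2]→L[ℝ] ℝ} {q : E d} {t M : ℝ}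
    (hM : 0 ≤ M) (ht : 0 < t) (ht1 : t ≤ 1) (hs : ∀ x ∈ Metric.ball q t, ‖s x‖ ≤ M) :
    ∫⁻ x in Metric.ball q t, ‖s x‖ₑ ≤
      ENNReal.ofReal (M * (volume (Metric.ball (0 : E d) 1)).toReal * t ^ ((d : ℝ) - a)) := by
  refine (setLIntegral_mono' (g := fun _ => ENNReal.ofReal M)
    Metric.isOpen_ball.measurableSet fun x hx => ?_).trans ?_
  · rw [← ofReal_norm]
    exact ENNReal.ofReal_le_ofReal (hs x hx)
  · rw [setLIntegral_const, Measure.addHaar_ball_of_pos _ _ ht, finrank_euclideanSpace_fin,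
      mul_assoc M, ENNReal.ofReal_mul hM]
    refine mul_le_mul_right ?_ _
    rw [← ENNReal.ofReal_toReal (measure_ball_lt_top (μ := volume) (x := (0 : E d)) (r := 1)).ne,
      ← ENNReal.ofReal_mul (by positivity), ENNReal.toReal_ofReal ENNReal.toReal_nonneg]
    refine ENNReal.ofReal_le_ofReal ?_
    rw [mul_comm]
    refine mul_le_mul_of_nonneg_left ?_ ENNReal.toReal_nonneg
    rw [← Real.rpow_natCast]
    exact Real.rpow_le_rpow_of_exponent_ge ht ht1 (by linarith)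

theorem Mor.add {a : ℝ} (ha : 0 ≤ a) {s η : E d → (E d) [⋀^Fin 2]→L[ℝ] ℝ} {p : E d}
    {T : Set (E d)} (hT : IsOpen T) (hp : p ∈ T) (h : Mor a s p) (hη : ContinuousOn η T) :
    Mor a (fun q => s q + η q) p := by
  obtain ⟨r, C, hr, hC, h1⟩ := h
  obtain ⟨R, hR, hRT⟩ := Metric.nhds_basis_closedBall.mem_iff.1 (hT.mem_nhds hp)
  obtain ⟨M₀, hM₀⟩ := (isCompact_closedBall p R).exists_bound_of_continuousOn (hη.mono hRT)
  obtain ⟨M, hM⟩ : ∃ M, M = max M₀ 0 := ⟨_, rfl⟩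
  have hM0 : 0 ≤ M := by rw [hM]; exact le_max_right _ _
  obtain ⟨B, hB⟩ : ∃ B, B = (volume (Metric.ball (0 : E d) 1)).toReal := ⟨_, rfl⟩
  have hB0 : 0 ≤ B := by rw [hB]; exact ENNReal.toReal_nonneg
  refine ⟨min (min r 1) (R / 2), C + M * B, lt_min (lt_min hr one_pos) (by positivity),
    by positivity, fun q hq t ht htr => ?_⟩
  have hq1 : q ∈ Metric.ball p r :=
    Metric.ball_subset_ball ((min_le_left _ _).trans (min_le_left _ _)) hq
  have hq2 : dist q p < R / 2 := lt_of_lt_of_le (Metric.mem_ball.1 hq) (min_le_right _ _)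
  have ht2 : t ≤ R / 2 := htr.trans (min_le_right _ _)
  have ht1 : t ≤ 1 := htr.trans ((min_le_left _ _).trans (min_le_right _ _))
  have hsub : Metric.ball q t ⊆ Metric.closedBall p R := by
    intro x hx
    rw [Metric.mem_ball] at hx
    rw [Metric.mem_closedBall]
    have := dist_triangle x q p
    linarith
  have h2 := h1 q hq1 t ht (htr.trans ((min_le_left _ _).trans (min_le_left _ _)))
  have h3 := ball_bd (s := η) (q := q) ha hM0 ht ht1 fun x hx => by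
    rw [hM]
    exact (hM₀ x (hsub hx)).trans (le_max_left _ _)
  rw [← hB] at h3
  have hm : AEMeasurable (fun x => ‖η x‖ₑ) (volume.restrict (Metric.ball q t)) :=
    (((hη.mono (hsub.trans hRT)).aestronglyMeasurable Metric.isOpen_ball.measurableSet)).enorm
  calc ∫⁻ x in Metric.ball q t, ‖s x + η x‖ₑ
      ≤ ∫⁻ x in Metric.ball q t, (‖s x‖ₑ + ‖η x‖ₑ) := by
        refine lintegral_mono fun x => ?_
        rw [← ofReal_norm, ← ofReal_norm, ← ofReal_norm,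
          ← ENNReal.ofReal_add (norm_nonneg _) (norm_nonneg _)]
        exact ENNReal.ofReal_le_ofReal (norm_add_le _ _)
    _ = (∫⁻ x in Metric.ball q t, ‖s x‖ₑ) + ∫⁻ x in Metric.ball q t, ‖η x‖ₑ :=
        lintegral_add_right' _ hm
    _ ≤ ENNReal.ofReal (C * t ^ ((d : ℝ) - a)) + ENNReal.ofReal (M * B * t ^ ((d : ℝ) - a)) :=
        add_le_add h2 h3
    _ = ENNReal.ofReal ((C + M * B) * t ^ ((d : ℝ) - a)) := by
        rw [← ENNReal.ofReal_add (by positivity) (by positivity), add_mul]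

end loc

section

variable {d : ℕ} {X : Type} [TopologicalSpace X] [ChartedSpace (E d) X] [IsManifold (𝓡 d) ∞ X]

/-- the change of charts near a point -/
theorem cc {z₁ z₂ : X} {p₁ p₂ : E d}
    (hp₁ : p₁ ∈ (chartAt (E d) z₁).target) (hp₂ : p₂ ∈ (chartAt (E d) z₂).target)
    (hp : (chartAt (E d) z₁).symm p₁ = (chartAt (E d) z₂).symm p₂) {r : ℝ} (hr : 0 < r) :
    ∃ (ψ : E d → E d) (r' M μ : ℝ), 0 < r' ∧ 0 < M ∧ 0 < μ ∧
      ContDiffOn ℝ ∞ ψ (Metric.ball p₂ r') ∧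
      MapsTo ψ (Metric.ball p₂ r') (Metric.ball p₁ r) ∧ InjOn ψ (Metric.ball p₂ r') ∧
      (∀ q ∈ Metric.ball p₂ r', ‖fderiv ℝ ψ q‖ ≤ M) ∧
      (∀ q ∈ Metric.ball p₂ r', μ ≤ |(fderiv ℝ ψ q).det|) ∧
      ∀ w : Form d X 2, ∀ q ∈ Metric.ball p₂ r', pb (chartAt (E d) z₂).symm w q =
        (pb (chartAt (E d) z₁).symm w (ψ q)).compContinuousLinearMap (fderiv ℝ ψ q) := by
  obtain ⟨e₁, he₁⟩ : ∃ e₁, e₁ = chartAt (E d) z₁ := ⟨_, rfl⟩
  obtain ⟨e₂, he₂⟩ : ∃ e₂, e₂ = chartAt (E d) z₂ := ⟨_, rfl⟩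
  have hs₁ : ContMDiffOn (𝓡 d) (𝓡 d) ∞ e₁ e₁.source := by rw [he₁]; exact contMDiffOn_chart
  have hs₂ : ContMDiffOn (𝓡 d) (𝓡 d) ∞ e₂ e₂.source := by rw [he₂]; exact contMDiffOn_chart
  have ht₁ : ContMDiffOn (𝓡 d) (𝓡 d) ∞ e₁.symm e₁.target := by
    rw [he₁]; exact contMDiffOn_chart_symm
  have ht₂ : ContMDiffOn (𝓡 d) (𝓡 d) ∞ e₂.symm e₂.target := by
    rw [he₂]; exact contMDiffOn_chart_symm
  rw [← he₁] at hp₁ hp
  rw [← he₂] at hp₂ hp
  rw [← he₁, ← he₂]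
  obtain ⟨Ω, hΩ⟩ : ∃ Ω, Ω = e₂.target ∩ e₂.symm ⁻¹' e₁.source := ⟨_, rfl⟩
  have hΩo : IsOpen Ω := by rw [hΩ]; exact e₂.isOpen_inter_preimage_symm e₁.open_source
  obtain ⟨ψ, hψ⟩ : ∃ ψ : E d → E d, ψ = fun q => e₁ (e₂.symm q) := ⟨_, rfl⟩
  have hψs : ContDiffOn ℝ ∞ ψ Ω := by
    rw [← contMDiffOn_iff_contDiffOn, hψ, hΩ]
    exact hs₁.comp (ht₂.mono inter_subset_left) fun q hq => hq.2
  have hpΩ : p₂ ∈ Ω := by
    rw [hΩ]
    refine ⟨hp₂, ?_⟩
    rw [mem_preimage, ← hp]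
    exact e₁.map_target hp₁
  have hψp : ψ p₂ = p₁ := by
    rw [hψ]
    change e₁ (e₂.symm p₂) = p₁
    rw [← hp, e₁.right_inv hp₁]
  have hinj : InjOn ψ Ω := by
    intro a ha b hb hab
    rw [hΩ] at ha hb
    rw [hψ] at hab
    exact e₂.symm.injOn ha.1 hb.1 (e₁.injOn ha.2 hb.2 hab)
  have hψt : ∀ q ∈ Ω, ψ q ∈ e₁.target := by
    intro q hq
    rw [hΩ] at hq
    rw [hψ]
    exact e₁.map_source hq.2
  have hdet : (fderiv ℝ ψ p₂).det ≠ 0 := by
    obtain ⟨φ, hφ⟩ : ∃ φ : E d → E d, φ = fun q => e₂ (e₁.symm q) := ⟨_, rfl⟩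
    have hφs : ContDiffAt ℝ ∞ φ (ψ p₂) := by
      have h1 : ContDiffOn ℝ ∞ φ (e₁.target ∩ e₁.symm ⁻¹' e₂.source) := by
        rw [← contMDiffOn_iff_contDiffOn, hφ]
        exact hs₂.comp (ht₁.mono inter_subset_left) fun q hq => hq.2
      refine h1.contDiffAt ((e₁.isOpen_inter_preimage_symm e₂.open_source).mem_nhds ?_)
      rw [hψp]
      refine ⟨hp₁, ?_⟩
      rw [mem_preimage, hp]
      exact e₂.map_target hp₂
    have h2 : HasFDerivAt (φ ∘ ψ) ((fderiv ℝ φ (ψ p₂)).comp (fderiv ℝ ψ p₂)) p₂ :=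
      (hφs.differentiableAt (by simp)).hasFDerivAt.comp p₂
        ((hψs.contDiffAt (hΩo.mem_nhds hpΩ)).differentiableAt (by simp)).hasFDerivAt
    have h3 : (φ ∘ ψ) =ᶠ[𝓝 p₂] fun q => q := by
      filter_upwards [hΩo.mem_nhds hpΩ] with q hq
      rw [hΩ] at hq
      rw [hφ, hψ]
      change e₂ (e₁.symm (e₁ (e₂.symm q))) = q
      rw [e₁.left_inv hq.2, e₂.right_inv hq.1]
    have h4 : (fderiv ℝ φ (ψ p₂)).comp (fderiv ℝ ψ p₂) = ContinuousLinearMap.id ℝ (E d) :=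
      (h2.congr_of_eventuallyEq h3.symm).unique (hasFDerivAt_id p₂)
    intro h0
    have h5 : ((fderiv ℝ φ (ψ p₂)).comp (fderiv ℝ ψ p₂)).det =
        (fderiv ℝ φ (ψ p₂)).det * (fderiv ℝ ψ p₂).det := LinearMap.det_comp _ _
    rw [h4, h0, mul_zero] at h5
    have h6 : (ContinuousLinearMap.id ℝ (E d)).det = 1 := LinearMap.det_id
    rw [h6] at h5
    exact one_ne_zero h5
  have hDc : ContinuousAt (fderiv ℝ ψ) p₂ :=
    (hψs.continuousOn_fderiv_of_isOpen hΩo (by simp)).continuousAt (hΩo.mem_nhds hpΩ)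
  obtain ⟨μ, hμ⟩ : ∃ μ : ℝ, μ = |(fderiv ℝ ψ p₂).det| / 2 := ⟨_, rfl⟩
  have hμ0 : 0 < μ := by rw [hμ]; have := abs_pos.2 hdet; positivity
  obtain ⟨M, hM⟩ : ∃ M : ℝ, M = ‖fderiv ℝ ψ p₂‖ + 1 := ⟨_, rfl⟩
  have hM0 : 0 < M := by rw [hM]; positivity
  have hev : ∀ᶠ q in 𝓝 p₂, (q ∈ Ω ∧ ψ q ∈ Metric.ball p₁ r) ∧ ‖fderiv ℝ ψ q‖ < M ∧
      μ < |(fderiv ℝ ψ q).det| := by
    refine Filter.Eventually.and (Filter.Eventually.and (hΩo.mem_nhds hpΩ) ?_)
      (Filter.Eventually.and ?_ ?_)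
    · have h1 : ContinuousAt ψ p₂ := (hψs.contDiffAt (hΩo.mem_nhds hpΩ)).continuousAt
      refine h1.eventually ?_
      rw [hψp]
      exact Metric.ball_mem_nhds p₁ hr
    · refine hDc.norm.eventually_lt_const ?_
      rw [hM]
      exact lt_add_one _
    · have h1 : ContinuousAt (fun q => |(fderiv ℝ ψ q).det|) p₂ :=
        (ContinuousLinearMap.continuous_det.continuousAt.comp hDc).abs
      refine h1.eventually_const_lt ?_
      rw [hμ]
      have := abs_pos.2 hdet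
      linarith
  obtain ⟨r', hr', hb⟩ := Metric.eventually_nhds_iff_ball.1 hev
  refine ⟨ψ, r', M, μ, hr', hM0, hμ0, hψs.mono fun q hq => (hb q hq).1.1,
    fun q hq => (hb q hq).1.2, hinj.mono fun q hq => (hb q hq).1.1,
    fun q hq => (hb q hq).2.1.le, fun q hq => (hb q hq).2.2.le, fun w q hq => ?_⟩
  have hq' := (hb q hq).1.1
  have h2 : e₂.symm =ᶠ[𝓝 q] (e₁.symm ∘ ψ) := by
    filter_upwards [hΩo.mem_nhds hq'] with y hy
    rw [hΩ] at hy
    rw [hψ]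
    exact (e₁.left_inv hy.2).symm
  rw [pb_ev w h2]
  refine pb_comp w ?_ ((hψs.contDiffAt (hΩo.mem_nhds hq')).differentiableAt (by simp))
  exact (ht₁.contMDiffAt (e₁.open_target.mem_nhds (hψt q hq'))).mdifferentiableAt (by simp)

theorem Mor.trans {a : ℝ} (had : a ≤ d) {w : Form d X 2} {z₁ z₂ : X} {p₁ p₂ : E d}
    (hp₁ : p₁ ∈ (chartAt (E d) z₁).target) (hp₂ : p₂ ∈ (chartAt (E d) z₂).target)
    (hp : (chartAt (E d) z₁).symm p₁ = (chartAt (E d) z₂).symm p₂)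
    (h : Mor a (pb (chartAt (E d) z₁).symm w) p₁) : Mor a (pb (chartAt (E d) z₂).symm w) p₂ := by
  obtain ⟨r, C, hr, hC, h1⟩ := h
  obtain ⟨ψ, r', M, μ, hr', hM, hμ, hψ, hψm, hinj, hψM, hψμ, hpb⟩ := cc hp₁ hp₂ hp hr
  refine ⟨min (r' / 2) (r / M), M ^ 2 * (μ⁻¹ * (C * M ^ ((d : ℝ) - a))),
    lt_min (by positivity) (by positivity), by positivity, fun q hq t ht htr => ?_⟩
  have hq2 : dist q p₂ < r' / 2 := lt_of_lt_of_le (Metric.mem_ball.1 hq) (min_le_left _ _)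
  have ht2 : t ≤ r' / 2 := htr.trans (min_le_left _ _)
  have ht3 : t ≤ r / M := htr.trans (min_le_right _ _)
  have hMt : M * t ≤ r := by
    rw [le_div_iff₀ hM] at ht3
    linarith
  have hsub : Metric.ball q t ⊆ Metric.ball p₂ r' := by
    intro x hx
    rw [Metric.mem_ball] at hx ⊢
    have := dist_triangle x q p₂
    linarith
  have hqb : q ∈ Metric.ball p₂ r' := hsub (Metric.mem_ball_self ht)
  have hψd : ∀ x ∈ Metric.ball q t, HasFDerivAt ψ (fderiv ℝ ψ x) x := fun x hx =>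
    ((hψ.contDiffAt (Metric.isOpen_ball.mem_nhds (hsub hx))).differentiableAt
      (by simp)).hasFDerivAt
  have hmap : MapsTo ψ (Metric.ball q t) (Metric.ball (ψ q) (M * t)) := by
    intro x hx
    have h2 : ‖ψ x - ψ q‖ ≤ M * ‖x - q‖ :=
      Convex.norm_image_sub_le_of_norm_fderiv_le (𝕜 := ℝ)
        (fun y hy => (hψd y hy).differentiableAt) (fun y hy => hψM y (hsub hy))
        (convex_ball q t) (Metric.mem_ball_self ht) hx
    rw [Metric.mem_ball, dist_eq_norm] at hx ⊢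
    exact h2.trans_lt (mul_lt_mul_of_pos_left hx hM)
  have h3 := lint_pull (O := Metric.ball (ψ q) (M * t)) (O' := Metric.ball q t) (ψ := ψ)
    Metric.isOpen_ball hψd hmap (hinj.mono hsub) hμ (fun x hx => hψμ x (hsub hx))
    (fun x => ‖pb (chartAt (E d) z₁).symm w x‖ₑ)
  have h4 := h1 (ψ q) (hψm hqb) (M * t) (by positivity) hMt
  calc ∫⁻ x in Metric.ball q t, ‖pb (chartAt (E d) z₂).symm w x‖ₑ
      ≤ ∫⁻ x in Metric.ball q t, ENNReal.ofReal (M ^ 2) *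
          ‖pb (chartAt (E d) z₁).symm w (ψ x)‖ₑ := by
        refine setLIntegral_mono' Metric.isOpen_ball.measurableSet fun x hx => ?_
        rw [hpb w x (hsub hx), ← ofReal_norm, ← ofReal_norm, ← ENNReal.ofReal_mul (by positivity)]
        refine ENNReal.ofReal_le_ofReal ?_
        refine (comp_norm _ _).trans ?_
        rw [mul_comm]
        have h5 := hψM x (hsub hx)
        gcongr
    _ = ENNReal.ofReal (M ^ 2) * ∫⁻ x in Metric.ball q t,
          ‖pb (chartAt (E d) z₁).symm w (ψ x)‖ₑ := lintegral_const_mul' _ _ ENNReal.ofReal_ne_top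
    _ ≤ ENNReal.ofReal (M ^ 2) * (ENNReal.ofReal μ⁻¹ *
          ENNReal.ofReal (C * (M * t) ^ ((d : ℝ) - a))) := by
        gcongr
        exact h3.trans (by gcongr)
    _ = ENNReal.ofReal (M ^ 2 * (μ⁻¹ * (C * M ^ ((d : ℝ) - a))) * t ^ ((d : ℝ) - a)) := by
        rw [← ENNReal.ofReal_mul (by positivity), ← ENNReal.ofReal_mul (by positivity)]
        congr 1
        rw [Real.mul_rpow hM.le ht.le]
        ring

end

end Pool.Agent.U896.SV
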