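import Pool.Agent.U896.SW.RegM
import Pool.Agent.U896.SV.AvL
import Pool.Agent.U896.SV.Mor

/-!
# Forms of Morrey growth: regularization in a chart
-/

set_option autoImplicit false

open Set Filter Topology MeasureTheory
open scoped Manifold ContDiff ENNReal

noncomputable section

namespace Pool.Agent.U896.SV

open Pool.Agent.Y501.SY (E Moll S_SM)
open Pool.Agent.Y515.SY
open Pool.Agent.U896
open Pool.Agent.U896.SE hiding sq aff_null
open Pool.Agent.U896.SW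

variable {d : ℕ}

theorem mor_unif {a : ℝ} {s : E d → Al d 2} {Q : Set (E d)} (hQ : IsCompact Q)
    (h : ∀ p ∈ Q, Mor a s p) : ∃ δ C : ℝ, 0 < δ ∧ 0 ≤ C ∧ ∀ p ∈ Q, ∀ t : ℝ, 0 < t → t ≤ δ →
      ∫⁻ x in Metric.ball p t, ‖s x‖ₑ ≤ ENNReal.ofReal (C * t ^ ((d : ℝ) - a)) := by
  refine hQ.induction_on (p := fun S => ∃ δ C : ℝ, 0 < δ ∧ 0 ≤ C ∧ ∀ p ∈ S, ∀ t : ℝ, 0 < t →
      t ≤ δ → ∫⁻ x in Metric.ball p t, ‖s x‖ₑ ≤ ENNReal.ofReal (C * t ^ ((d : ℝ) - a))) ?_ ?_ ?_ ?_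
  · exact ⟨1, 0, one_pos, le_rfl, fun p hp => absurd hp (notMem_empty p)⟩
  · rintro S T hST ⟨δ, C, h1, h2, h3⟩
    exact ⟨δ, C, h1, h2, fun p hp => h3 p (hST hp)⟩
  · rintro S T ⟨δ, C, h1, h2, h3⟩ ⟨δ', C', h1', h2', h3'⟩
    refine ⟨min δ δ', C + C', lt_min h1 h1', by positivity, ?_⟩
    rintro p (hp | hp) t ht htδ
    · refine (h3 p hp t ht (htδ.trans (min_le_left _ _))).trans (ENNReal.ofReal_le_ofReal ?_)
      exact mul_le_mul_of_nonneg_right (by linarith) (by positivity)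
    · refine (h3' p hp t ht (htδ.trans (min_le_right _ _))).trans (ENNReal.ofReal_le_ofReal ?_)
      exact mul_le_mul_of_nonneg_right (by linarith) (by positivity)
  · intro x hx
    obtain ⟨r, C, hr, hC, h1⟩ := h x hx
    exact ⟨Metric.ball x r, mem_nhdsWithin_of_mem_nhds (Metric.ball_mem_nhds x hr), r, C, hr, hC,
      h1⟩

theorem comm_bd {α : E d →L[ℝ] ℝ} {y : E d} {P R : E d →L[ℝ] E d} {S b η : ℝ} (hS : 0 ≤ S)
    (hP : ‖P‖ ≤ S) (hR : ‖R‖ ≤ S) (hPR : ‖P - R‖ ≤ η) (hb : ‖α‖ * ‖y‖ ≤ b) :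
    ‖(LL α y).comp P - R.comp (LL α y)‖ ≤ η + 2 * S * b := by
  have hη : 0 ≤ η := (norm_nonneg _).trans hPR
  have hb0 : 0 ≤ b := le_trans (by positivity) hb
  refine ContinuousLinearMap.opNorm_le_bound _ (by positivity) fun v => ?_
  have h1 : ((LL α y).comp P - R.comp (LL α y)) v =
      (P - R) v + (α (P v) • y - α v • R y) := by
    change (P v + α (P v) • y) - R (v + α v • y) = (P v - R v) + (α (P v) • y - α v • R y)
    rw [map_add, map_smul]
    abel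
  rw [h1]
  refine (norm_add_le _ _).trans ?_
  have h2 : ‖(P - R) v‖ ≤ η * ‖v‖ :=
    ((P - R).le_opNorm v).trans (mul_le_mul_of_nonneg_right hPR (norm_nonneg _))
  have h3 : ‖α (P v) • y‖ ≤ S * b * ‖v‖ := by
    rw [norm_smul]
    have h4 : ‖α (P v)‖ ≤ ‖α‖ * (S * ‖v‖) :=
      (α.le_opNorm _).trans (mul_le_mul_of_nonneg_left ((P.le_opNorm v).trans
        (mul_le_mul_of_nonneg_right hP (norm_nonneg _))) (norm_nonneg _))
    calc ‖α (P v)‖ * ‖y‖ ≤ (‖α‖ * (S * ‖v‖)) * ‖y‖ := by gcongr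
      _ = (‖α‖ * ‖y‖) * (S * ‖v‖) := by ring
      _ ≤ b * (S * ‖v‖) := by gcongr
      _ = _ := by ring
  have h5 : ‖α v • R y‖ ≤ S * b * ‖v‖ := by
    rw [norm_smul]
    have h4 : ‖R y‖ ≤ S * ‖y‖ := (R.le_opNorm _).trans
      (mul_le_mul_of_nonneg_right hR (norm_nonneg _))
    calc ‖α v‖ * ‖R y‖ ≤ (‖α‖ * ‖v‖) * (S * ‖y‖) :=
          mul_le_mul (α.le_opNorm v) h4 (norm_nonneg _) (by positivity)
      _ = (‖α‖ * ‖y‖) * (S * ‖v‖) := by ring
      _ ≤ b * (S * ‖v‖) := by gcongr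
      _ = _ := by ring
  have h6 := norm_sub_le (α (P v) • y) (α v • R y)
  calc _ ≤ η * ‖v‖ + (S * b * ‖v‖ + S * b * ‖v‖) := by linarith
    _ = _ := by ring

theorem regL (hSM : S_SM) {V k N : Set (E d)} {χ : E d → ℝ}
    {s : E d → Al d 2} {Js : E d → (E d →L[ℝ] E d)} {c a γ H D₁ : ℝ} (hc : 0 < c) (ha : 0 ≤ a)
    (haγ : a < γ) (hγ : γ ≤ 1) (hH : 0 ≤ H) (hD₁ : 0 ≤ D₁) (hV : IsOpen V)
    (hVk : IsOpen (V \ k)) (hNk : N ⊆ k)
    (hnull' : ∀ Q : Set (E d), IsCompact Q → Q ⊆ V → volume (N ∩ Q) = 0)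
    (hLC : ∀ p ∈ V, LCp s p) (hMor : ∀ p ∈ V, Mor a s p)
    (hχ : ContDiff ℝ ∞ χ) (hχ0 : ∀ p, 0 ≤ χ p) (hχ1 : ∀ p, χ p ≤ 1)
    (hχD : ∀ p, ‖fderiv ℝ χ p‖ ≤ D₁ * χ p ^ a) (hχc : HasCompactSupport χ)
    (hχV : tsupport χ ⊆ V)
    (hs : ContDiffOn ℝ ∞ s (V \ k)) (hcl : ∀ p ∈ V \ k, extDeriv s p = 0)
    (hJ : ContinuousOn Js V) (hJH : ∀ p ∈ V, ∀ q ∈ V, ‖Js p - Js q‖ ≤ H * ‖p - q‖ ^ γ)
    (hpos : ∀ p ∈ V \ N, ∀ v : E d, c * ‖v‖ ^ 2 ≤ s p ![v, Js p v]) :
    ∃ (s' : E d → Al d 2) (c' : ℝ), 0 < c' ∧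
      ContDiffOn ℝ ∞ s' (V \ (k ∩ {p | χ p = 0})) ∧
      (∀ p ∈ V \ (k ∩ {p | χ p = 0}), extDeriv s' p = 0) ∧
      (∀ p, χ p = 0 → s' p = s p) ∧
      (∀ p ∈ V \ (N ∩ {p | χ p = 0}), ∀ v : E d, c' * ‖v‖ ^ 2 ≤ s' p ![v, Js p v]) ∧
      (∀ p ∈ V, LCp s' p) ∧ ∀ p ∈ V, Mor a s' p := by
  obtain ⟨r, hr, hrV⟩ := IsCompact.exists_cthickening_subset_open hχc hV hχV
  set Q : Set (E d) := Metric.cthickening r (tsupport χ) with hQdef
  have hQ : IsCompact Q := IsCompact.cthickening hχc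
  have hNQ : tsupport χ ⊆ Q := Metric.self_subset_cthickening _
  have hGQ : Metric.thickening r (tsupport χ) ⊆ Q := Metric.thickening_subset_cthickening _ _
  -- a uniform radius
  obtain ⟨δ₁, Cm, hδ₁, hCm, hmor⟩ := mor_unif hQ fun p hp => hMor p (hrV hp)
  obtain ⟨δ, hδ, hδr, hδm, hδL⟩ : ∃ δ : ℝ, 0 < δ ∧ δ ≤ r ∧ δ ≤ δ₁ ∧ ∀ p ∈ tsupport χ,
      LCl s (Metric.ball p δ) := by
    choose! R hR0 hR using hLC
    obtain ⟨δ, hδ, hδ'⟩ := lebesgue_number_lemma_of_metric (s := tsupport χ)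
      (c := fun x : V => Metric.ball (x : E d) (R x)) hχc (fun x => Metric.isOpen_ball)
      (fun p hp => mem_iUnion.2 ⟨⟨p, hχV hp⟩, Metric.mem_ball_self (hR0 p (hχV hp))⟩)
    refine ⟨min δ (min r δ₁), lt_min hδ (lt_min hr hδ₁), (min_le_right _ _).trans (min_le_left _ _),
      (min_le_right _ _).trans (min_le_right _ _), fun p hp => ?_⟩
    obtain ⟨x, hx⟩ := hδ' p hp
    exact (hR x x.2).mono ((Metric.ball_subset_ball (min_le_left _ _)).trans hx)
  have hΦi' : IntegrableOn s Q volume := by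
    refine LocallyIntegrableOn.integrableOn_isCompact (fun x hx => ?_) hQ
    obtain ⟨R, hR, hL⟩ := hLC x (hrV hx)
    exact ⟨Metric.ball x R, mem_nhdsWithin_of_mem_nhds (Metric.ball_mem_nhds x hR),
      hL.meas, hasFiniteIntegral_iff_enorm.2 hL.fin⟩
  set Φ : E d → Al d 2 := Q.indicator s with hΦ
  have hΦi : Integrable Φ := by
    rw [hΦ]
    exact (integrable_indicator_iff hQ.measurableSet).2
      ⟨hΦi'.1, hasFiniteIntegral_iff_enorm.2 (hasFiniteIntegral_iff_enorm.1 hΦi'.2)⟩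
  have hΦs : ∀ p ∈ Q, Φ p = s p := fun p hp => indicator_of_mem hp s
  -- constants
  obtain ⟨S₀, hS₀⟩ := hQ.exists_bound_of_continuousOn (hJ.mono hrV)
  set S : ℝ := max S₀ 0 with hSdef
  have hS0 : 0 ≤ S := le_max_right _ _
  have hS : ∀ p ∈ Q, ‖Js p‖ ≤ S := fun p hp => (hS₀ p hp).trans (le_max_left _ _)
  obtain ⟨D, hD⟩ := (hχ.continuous_fderiv (by simp)).bounded_above_of_compact_support
    (hχc.fderiv ℝ)
  have hD0 : 0 ≤ D := (norm_nonneg _).trans (hD 0)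
  obtain ⟨θ, hθ, hdet⟩ := det_near (d := d)
  obtain ⟨A, hA0, hmoll⟩ := moll_bd (d := d)
  obtain ⟨F, hF⟩ : ∃ F : ℝ → ℝ, F = fun ε => 2 * (A * Cm * (H * ε ^ (γ - a) +
    2 * S * D₁ * ε ^ (1 - a))) := ⟨_, rfl⟩
  have hFev : ∀ᶠ ε in 𝓝 (0 : ℝ), F ε < c / 8 := by
    have h1 : ContinuousAt F 0 := by
      rw [hF]
      have e1 := Real.continuousAt_rpow_const (0 : ℝ) (γ - a) (Or.inr (by linarith))
      have e2 := Real.continuousAt_rpow_const (0 : ℝ) (1 - a) (Or.inr (by linarith))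
      exact (((e1.const_mul H).add (e2.const_mul (2 * S * D₁))).const_mul (A * Cm)).const_mul 2
    refine h1.eventually_lt_const ?_
    rw [hF]
    have e1 : (0 : ℝ) ^ (γ - a) = 0 := Real.zero_rpow (by linarith)
    have e2 : (0 : ℝ) ^ (1 - a) = 0 := Real.zero_rpow (by linarith)
    simp only [e1, e2, mul_zero, add_zero]
    positivity
  obtain ⟨ε, ⟨⟨hFε, hε₁⟩, hε₂, hε₃⟩, hε⟩ : ∃ ε : ℝ, ((F ε < c / 8 ∧ ε < δ / 8) ∧
      ε < 1 / (2 * (D + 1)) ∧ ε < θ / (D + 1)) ∧ 0 < ε := by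
    have h1 : ∀ᶠ ε in 𝓝 (0 : ℝ), (F ε < c / 8 ∧ ε < δ / 8) ∧
        ε < 1 / (2 * (D + 1)) ∧ ε < θ / (D + 1) :=
      (hFev.and (eventually_lt_nhds (by positivity))).and
        ((eventually_lt_nhds (by positivity)).and (eventually_lt_nhds (by positivity)))
    have h2 : ∀ᶠ ε in 𝓝[>] (0 : ℝ), ((F ε < c / 8 ∧ ε < δ / 8) ∧
        ε < 1 / (2 * (D + 1)) ∧ ε < θ / (D + 1)) ∧ 0 < ε :=
      (h1.filter_mono nhdsWithin_le_nhds).and self_mem_nhdsWithin
    exact h2.exists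
  rw [lt_div_iff₀ (by positivity)] at hε₂ hε₃
  have hDε2 : D * ε ≤ 1 / 2 := by nlinarith
  have hDε1 : D * ε < 1 := by linarith
  have hDεθ : D * ε ≤ θ := by nlinarith
  obtain ⟨ρ, hρ, hρA⟩ := hmoll ε hε
  have hmove : ∀ p y : E d, ‖y‖ ≤ ε → ‖χ p • y‖ ≤ ε := by
    intro p y hy
    rw [norm_smul, Real.norm_of_nonneg (hχ0 p)]
    calc χ p * ‖y‖ ≤ 1 * ε := mul_le_mul (hχ1 p) hy (norm_nonneg _) zero_le_one
      _ = ε := one_mul ε
  have hBO : ∀ p₀ : E d, ∀ p ∈ Metric.ball p₀ (δ / 2), ∀ y, ‖y‖ ≤ ε →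
      p + χ p • y ∈ Metric.ball p₀ δ := by
    intro p₀ p hp y hy
    rw [Metric.mem_ball, dist_eq_norm] at hp ⊢
    have h1 : p + χ p • y - p₀ = (p - p₀) + χ p • y := by abel
    rw [h1]
    refine (norm_add_le _ _).trans_lt ?_
    have h2 := hmove p y hy
    linarith
  have hball : ∀ p ∈ tsupport χ, ∀ y, ‖y‖ ≤ ε → p + χ p • y ∈ Metric.ball p δ :=
    fun p _ y hy => hBO p p (Metric.mem_ball_self (by positivity)) y hy
  have hOQ : ∀ p ∈ tsupport χ, Metric.ball p δ ⊆ Q := by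
    intro p hp q hq
    apply hGQ
    rw [Metric.mem_thickening_iff]
    exact ⟨p, hp, lt_of_lt_of_le (Metric.mem_ball.1 hq) hδr⟩
  have hin : ∀ p, χ p ≠ 0 → p ∈ tsupport χ := fun p hp => subset_tsupport χ hp
  have hfd : ∀ p, χ p = 0 → fderiv ℝ χ p = 0 := by
    intro p hp
    apply IsLocalMin.fderiv_eq_zero
    refine Eventually.of_forall fun x => ?_
    rw [hp]
    exact hχ0 x
  have hχ00 : ∀ p, 0 < χ p ∨ (χ p = 0 ∧ fderiv ℝ χ p = 0) := by
    intro p
    rcases (hχ0 p).lt_or_eq with h | h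
    · exact Or.inl h
    · exact Or.inr ⟨h.symm, hfd p h.symm⟩
  classical
  set J : E d → Al d 2 := JJ ρ χ Φ with hJdef
  obtain ⟨s', hs'⟩ : ∃ s' : E d → Al d 2, ∀ p, s' p = if χ p = 0 then s p else J p :=
    ⟨_, fun _ => rfl⟩
  -- near the points of the support
  have hloc : ∀ p₀ ∈ tsupport χ, ∀ p ∈ Metric.ball p₀ (δ / 2),
      s' p = JJ ρ χ ((Metric.ball p₀ δ).indicator s) p := by
    intro p₀ hp₀ p hp
    rw [hs' p]
    split_ifs with h
    · rw [JJ_eq hρ _ h (hfd p h)]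
      exact (indicator_of_mem (Metric.ball_subset_ball (by linarith) hp) _).symm
    · rw [hJdef]
      refine JJ_congr hρ fun y hy => ?_
      have h1 := hBO p₀ p hp y hy
      rw [indicator_of_mem h1, hΦs _ (hOQ p₀ hp₀ h1)]
  have hev : ∀ p₀ ∈ tsupport χ, s' =ᶠ[𝓝 p₀] JJ ρ χ ((Metric.ball p₀ δ).indicator s) := by
    intro p₀ hp₀
    filter_upwards [Metric.ball_mem_nhds p₀ (half_pos hδ)] with p hp
    exact hloc p₀ hp₀ p hp
  set Ω : Set (E d) := V \ (k ∩ {p | χ p = 0}) with hΩ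
  have hsplit : ∀ p ∈ Ω, (χ p = 0 ∧ p ∈ V \ k) ∨ (0 < χ p ∧ p ∈ V) := by
    intro p hp
    by_cases h : χ p = 0
    · exact Or.inl ⟨h, hp.1, fun hk => hp.2 ⟨hk, h⟩⟩
    · exact Or.inr ⟨lt_of_le_of_ne (hχ0 p) (Ne.symm h), hp.1⟩
  have hev2 : ∀ p, p ∉ tsupport χ → s' =ᶠ[𝓝 p] s := by
    intro p hp
    filter_upwards [notMem_tsupport_iff_eventuallyEq.1 hp] with q hq
    have hq' : χ q = 0 := hq
    rw [hs' q, if_pos hq']
  have hsm : ∀ p ∈ Ω, ContDiffAt ℝ ∞ s' p ∧ extDeriv s' p = 0 := by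
    intro p hp
    by_cases hpt : p ∈ tsupport χ
    · have hO : IsOpen (Metric.ball p δ) := Metric.isOpen_ball
      have hL := hδL p hpt
      have h1 : ContDiffAt ℝ ∞ (JJ ρ χ ((Metric.ball p δ).indicator s)) p ∧
          extDeriv (JJ ρ χ ((Metric.ball p δ).indicator s)) p = 0 := by
        rcases hsplit p hp with h | h
        · have hOk : IsOpen (Metric.ball p δ ∩ (V \ k)) := hO.inter hVk
          have hpk : p ∈ Metric.ball p δ ∩ (V \ k) := ⟨Metric.mem_ball_self hδ, h.2⟩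
          refine JJ_sc' hSM hρ hχ hOk ?_ ?_ (p := p) (fun y _ => by
            rw [h.1, zero_smul, add_zero]
            exact hpk)
          · refine (hs.mono inter_subset_right).congr fun q hq => ?_
            exact indicator_of_mem hq.1 _
          · intro q hq
            have h3 : (Metric.ball p δ).indicator s =ᶠ[𝓝 q] s := by
              filter_upwards [hO.mem_nhds hq.1] with x hx
              exact indicator_of_mem hx _
            rw [h3.extDeriv_eq, hcl q hq.2]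
        · exact ⟨JJ_smooth' hχ h.1 hρ.smooth (moll_cs hρ) (ind_int hO hL.meas hL.fin),
            LCl_closed hSM hρ hχ hO h.1 (hball p hpt) hL⟩
      refine ⟨h1.1.congr_of_eventuallyEq (hev p hpt), ?_⟩
      rw [(hev p hpt).extDeriv_eq]
      exact h1.2
    · have hpV : p ∈ V \ k := by
        rcases hsplit p hp with h | h
        · exact h.2
        · exact absurd (hin p h.1.ne') hpt
      refine ⟨(hs.contDiffAt (hVk.mem_nhds hpV)).congr_of_eventuallyEq (hev2 p hpt), ?_⟩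
      rw [(hev2 p hpt).extDeriv_eq]
      exact hcl p hpV
  refine ⟨s', c / 8, by positivity, ?_, ?_, ?_, ?_, ?_, ?_⟩
  · intro p hp
    exact (hsm p hp).1.contDiffWithinAt
  · intro p hp
    exact (hsm p hp).2
  · intro p hp
    rw [hs' p, if_pos hp]
  · intro p hp v
    by_cases h0 : χ p = 0
    · have hpN : p ∈ V \ N := ⟨hp.1, fun h => hp.2 ⟨h, h0⟩⟩
      rw [hs' p, if_pos h0]
      refine le_trans ?_ (hpos p hpN v)
      have h2 : 0 ≤ ‖v‖ ^ 2 := sq_nonneg _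
      nlinarith
    · have hp0 : 0 < χ p := lt_of_le_of_ne (hχ0 p) (Ne.symm h0)
      rw [hs' p, if_neg h0]
      have hpN : p ∈ tsupport χ := hin p h0
      have hpQ : p ∈ Q := hNQ hpN
      have hu0 : 0 < χ p * ε := by positivity
      have hu1 : χ p * ε ≤ ε := by
        calc χ p * ε ≤ 1 * ε := mul_le_mul_of_nonneg_right (hχ1 p) hε.le
          _ = ε := one_mul ε
      obtain ⟨κ, hκ⟩ : ∃ κ : ℝ, κ = H * (χ p * ε) ^ γ + 2 * S * (D₁ * χ p ^ a * ε) := ⟨_, rfl⟩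
      have hκ0 : 0 ≤ κ := by rw [hκ]; positivity
      refine JJ_lbL (D := D) (κ := κ) hρ hΦi hc hε.le hκ0 hp0 (hD p) hDε2 ?_ ?_ v
      · have hB : ∫⁻ x in Metric.ball p (χ p * ε), ‖Φ x‖ₑ ≤
            ENNReal.ofReal (Cm * (χ p * ε) ^ ((d : ℝ) - a)) := by
          refine le_trans (lintegral_mono fun x => ?_) (hmor p hpQ (χ p * ε) hu0 (by linarith))
          rw [hΦ]
          by_cases hx : x ∈ Q
          · rw [indicator_of_mem hx]
          · rw [indicator_of_notMem hx, ← ofReal_norm, norm_zero, ENNReal.ofReal_zero]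
            exact bot_le
        have h1 := av_bd hA0.le hρ hρA hΦi hε hp0 (by positivity) hB
        have h2 : A * ((χ p * ε)⁻¹) ^ d * (Cm * (χ p * ε) ^ ((d : ℝ) - a)) =
            A * Cm * (χ p * ε) ^ (-a) := by
          have h3 : ((χ p * ε)⁻¹) ^ d = (χ p * ε) ^ (-(d : ℝ)) := by
            rw [Real.rpow_neg hu0.le, Real.rpow_natCast, inv_pow]
          have h4 : (χ p * ε) ^ (-(d : ℝ)) * (χ p * ε) ^ ((d : ℝ) - a) = (χ p * ε) ^ (-a) := by
            rw [← Real.rpow_add hu0]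
            congr 1
            ring
          rw [h3, ← h4]
          ring
        rw [h2] at h1
        have h5 : (χ p * ε) ^ γ * (χ p * ε) ^ (-a) ≤ ε ^ (γ - a) := by
          rw [← Real.rpow_add hu0, ← sub_eq_add_neg]
          exact Real.rpow_le_rpow hu0.le hu1 (by linarith)
        have h6 : χ p ^ a * ε * (χ p * ε) ^ (-a) = ε ^ (1 - a) := by
          rw [Real.mul_rpow hp0.le hε.le, Real.rpow_neg hp0.le, Real.rpow_sub hε, Real.rpow_one,
            Real.rpow_neg hε.le]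
          have h7 : χ p ^ a ≠ 0 := (Real.rpow_pos_of_pos hp0 a).ne'
          have h8 : ε ^ a ≠ 0 := (Real.rpow_pos_of_pos hε a).ne'
          field_simp
        have h9 : κ * (χ p * ε) ^ (-a) ≤ H * ε ^ (γ - a) + 2 * S * D₁ * ε ^ (1 - a) := by
          rw [hκ, add_mul, ← h6]
          have h10 : H * (χ p * ε) ^ γ * (χ p * ε) ^ (-a) ≤ H * ε ^ (γ - a) := by
            rw [mul_assoc]
            exact mul_le_mul_of_nonneg_left h5 hH
          have h11 : 2 * S * (D₁ * χ p ^ a * ε) * (χ p * ε) ^ (-a) =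
              2 * S * D₁ * (χ p ^ a * ε * (χ p * ε) ^ (-a)) := by ring
          rw [h11]
          linarith
        have h12 : F ε < c / 8 := hFε
        rw [hF] at h12
        calc 2 * κ * (∫ y, ρ y * ‖Φ (p + χ p • y)‖)
            ≤ 2 * κ * (A * Cm * (χ p * ε) ^ (-a)) := by gcongr
          _ = 2 * (A * Cm * (κ * (χ p * ε) ^ (-a))) := by ring
          _ ≤ 2 * (A * Cm * (H * ε ^ (γ - a) + 2 * S * D₁ * ε ^ (1 - a))) := by gcongr
          _ ≤ c / 8 := h12.le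
      · filter_upwards [Pool.Agent.Y515.SY.aff_null (hnull' Q hQ hrV) p h0] with y hy hyε
        have hyQ := hOQ p hpN (hball p hpN y hyε.le)
        have hyN : p + χ p • y ∉ N := fun h' => hy ⟨h', hyQ⟩
        refine ⟨?_, ?_⟩
        · rw [hκ]
          refine comm_bd hS0 (hS p hpQ) (hS _ hyQ) ?_ ?_
          · refine (hJH p (hrV hpQ) _ (hrV hyQ)).trans (mul_le_mul_of_nonneg_left ?_ hH)
            refine Real.rpow_le_rpow (norm_nonneg _) ?_ (by linarith)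
            rw [sub_add_cancel_left, norm_neg, norm_smul, Real.norm_of_nonneg hp0.le]
            exact mul_le_mul_of_nonneg_left hyε.le hp0.le
          · exact mul_le_mul (hχD p) hyε.le (norm_nonneg _) (by positivity)
        · intro v
          rw [hΦs _ hyQ]
          exact hpos _ ⟨hrV hyQ, hyN⟩ v
  · intro p hp
    by_cases hpt : p ∈ tsupport χ
    · refine ⟨δ / 2, half_pos hδ, ?_⟩
      refine LCl.congr Metric.isOpen_ball ?_ (hloc p hpt)
      exact LCl_JJ hSM hε.le hρ hχ hχ00 hD hDε1 hDεθ hdet Metric.isOpen_ball Metric.isOpen_ball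
        (hBO p) (hδL p hpt)
    · obtain ⟨R, hR, hL⟩ := hLC p hp
      have h1 : IsOpen (tsupport χ)ᶜ := (isClosed_tsupport χ).isOpen_compl
      obtain ⟨R', hR', hR''⟩ := Metric.isOpen_iff.1 h1 p hpt
      refine ⟨min R R', lt_min hR hR', ?_⟩
      refine LCl.congr Metric.isOpen_ball (hL.mono (Metric.ball_subset_ball (min_le_left _ _)))
        fun q hq => ?_
      have hq' : q ∉ tsupport χ := hR'' (Metric.ball_subset_ball (min_le_right _ _) hq)
      rw [hs' q, if_pos (image_eq_zero_of_notMem_tsupport hq')]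
  · intro p hp
    by_cases hpt : p ∈ tsupport χ
    · refine ⟨δ / 8, 8 * (Cm * 2 ^ ((d : ℝ) - a)), by positivity, by positivity,
        fun q hq t ht htδ => ?_⟩
      have hqd : dist q p < δ / 8 := Metric.mem_ball.1 hq
      have hsub : Metric.ball q t ⊆ Metric.ball p (δ / 2) := by
        intro x hx
        rw [Metric.mem_ball] at hx ⊢
        have := dist_triangle x q p
        linarith
      have h1 : ∫⁻ x in Metric.ball q t, ‖s' x‖ₑ =
          ∫⁻ x in Metric.ball q t, ‖JJ ρ χ ((Metric.ball p δ).indicator s) x‖ₑ := by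
        refine setLIntegral_congr_fun Metric.isOpen_ball.measurableSet fun x hx => ?_
        simp only [hloc p hpt x (hsub hx)]
      rw [h1]
      have hL := hδL p hpt
      refine (JJ_ball hε.le hρ hχ hχ00 hD hDε1 hDεθ hdet
        (ind_int Metric.isOpen_ball hL.meas hL.fin) (q := q) (t := t)
        (M := ENNReal.ofReal (Cm * (2 * t) ^ ((d : ℝ) - a))) fun y hy => ?_).trans ?_
      · have h2 : q + χ q • y ∈ Q := by
          apply hOQ p hpt
          rw [Metric.mem_ball, dist_eq_norm] at *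
          have h3 : q + χ q • y - p = (q - p) + χ q • y := by abel
          rw [h3]
          refine (norm_add_le _ _).trans_lt ?_
          have := hmove q y hy
          linarith
        refine le_trans (lintegral_mono fun x => ?_) (hmor _ h2 (2 * t) (by positivity)
          (by linarith))
        by_cases hx : x ∈ Metric.ball p δ
        · rw [indicator_of_mem hx]
        · rw [indicator_of_notMem hx, ← ofReal_norm, norm_zero, ENNReal.ofReal_zero]
          exact bot_le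
      · have h8 : (8 : ℝ≥0∞) = ENNReal.ofReal 8 := by norm_num
        rw [h8, ← ENNReal.ofReal_mul (by norm_num), Real.mul_rpow (by norm_num) ht.le]
        refine ENNReal.ofReal_le_ofReal (le_of_eq ?_)
        ring
    · have h1 : IsOpen (tsupport χ)ᶜ := (isClosed_tsupport χ).isOpen_compl
      obtain ⟨R', hR', hR''⟩ := Metric.isOpen_iff.1 h1 p hpt
      refine (hMor p hp).congr hR' fun q hq => ?_
      rw [hs' q, if_pos (image_eq_zero_of_notMem_tsupport (hR'' hq))]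

end Pool.Agent.U896.SV
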