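import Pool.Agent.U896.SV.StepL

/-!
# Forms of Morrey growth: the main theorem
-/

set_option autoImplicit false

open Set Filter Topology MeasureTheory
open scoped Manifold ContDiff ENNReal

noncomputable section

namespace Pool.Agent.U896.SV

open Pool.Agent.Y501.SY
open Pool.Agent.U896.SW

section

variable {d : ℕ} {X : Type} [TopologicalSpace X] [ChartedSpace (E d) X] [IsManifold (𝓡 d) ∞ X]

theorem globL {a : ℝ} (ha : 0 ≤ a) (hI : S_IMM) (hQ : S_QB) [CompactSpace X] {m : ℕ} (F : X → E m)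
    (hF : ContMDiff (𝓡 d) (𝓡 m) ∞ F)
    (hinj : ∀ x, Function.Injective (mfderiv (𝓡 d) (𝓡 m) F x))
    (J : End d X) (hJ : IsAlmostComplex J) (σ η : Form d X 2) (K N : Set X)
    (hσs : SmoothOff σ K) (hσd : IsDOff σ 0 K)
    (hσL : ∀ z : X, ∀ p ∈ (chartAt (E d) z).target, LCn (pb (chartAt (E d) z).symm σ) p)
    (hσM : ∀ z : X, ∀ p ∈ (chartAt (E d) z).target, Mor a (pb (chartAt (E d) z).symm σ) p)
    (hηs : IsSmooth η) (hηd : IsClosedForm η)
    (hnn : ∀ x, x ∉ N → ∀ v : TangentSpace (𝓡 d) x, 0 ≤ σ x ![v, J x v])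
    (hut : ∀ x, UTAt σ J N x ∨ TamesAt η J x) : ∃ s : ℝ, 0 < s ∧ UL F J a (σ + s • η) K N := by
  obtain ⟨ε, hε, hpos⟩ := unif (isCompact_univ (X := X))
    (fun ε y => ∀ s : ℝ, 0 < s → s ≤ ε → y ∉ N →
      ∀ v : TangentSpace (𝓡 d) y, ε * s * nm F y v ^ 2 ≤ (σ + s • η) y ![v, J y v])
    (fun ε ε' y hle hp s hs hsε hy v => by
      refine le_trans ?_ (hp s hs (hsε.trans hle) hy v)
      exact mul_le_mul_of_nonneg_right (mul_le_mul_of_nonneg_right hle hs.le) (sq_nonneg _))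
    (fun x _ => Pool.Agent.Y929.SY.pos_near hI hQ F hF hinj J hJ σ η N hηs hnn x (hut x))
  have hpos' : ∀ y, y ∉ N → ∀ v : TangentSpace (𝓡 d) y,
      (ε * ε) * nm F y v ^ 2 ≤ (σ + ε • η) y ![v, J y v] :=
    fun y hy v => hpos y (mem_univ y) ε hε le_rfl hy v
  refine ⟨ε, hε, ?_, ?_, ?_, ?_, ⟨ε * ε, by positivity, hpos'⟩⟩
  · intro U φ hU hφ hUK
    rw [pb_add, pb_smul]
    exact (hσs U φ hU hφ hUK).add (contDiffOn_const.smul (hηs U φ hU hφ))
  · intro U φ hU hφ hUK p hp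
    have h1 : DifferentiableAt ℝ (pb φ σ) p :=
      ((hσs U φ hU hφ hUK).contDiffAt (hU.mem_nhds hp)).differentiableAt (by simp)
    have h2 : DifferentiableAt ℝ (pb φ (ε • η)) p := (hηs.smul ε).diffAt hU hφ hp
    rw [pb_add, extDeriv_add h1 h2, hσd U φ hU hφ hUK p hp, pb_smul, extDeriv_smul,
      hηd U φ hU hφ p hp, pb_zero]
    simp
  · intro z p hp
    rw [pb_add]
    refine LCn.add (chartAt (E d) z).open_target hp (hσL z p hp)
      (η := pb (chartAt (E d) z).symm (ε • η)) ?_ ?_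
    · exact (hηs.smul ε) _ _ (chartAt (E d) z).open_target contMDiffOn_chart_symm
    · intro q hq
      have h2 := hηd _ _ (chartAt (E d) z).open_target
        (contMDiffOn_chart_symm (x := z) (n := ∞) (I := 𝓡 d)) q hq
      rw [pb_smul, extDeriv_smul, h2]
      have h3 : pb (chartAt (E d) z).symm (0 : Form d X 3) q = 0 := by
        rw [pb_zero]
        rfl
      have h4 : ε • pb (chartAt (E d) z).symm (0 : Form d X 3) q = 0 := by rw [h3, smul_zero]
      exact h4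
  · intro z p hp
    rw [pb_add]
    exact Mor.add ha (chartAt (E d) z).open_target hp (hσM z p hp)
      (η := pb (chartAt (E d) z).symm (ε • η))
      ((hηs.smul ε) _ _ (chartAt (E d) z).open_target contMDiffOn_chart_symm).continuousOn

theorem mainL {a γ : ℝ} (ha : 0 ≤ a) (haγ : a < γ) (hγ : γ ≤ 1) (hd : 0 < d)
    (hI : S_IMM) (hQ : S_QB) (hSm : S_SM)
    (hPa : S_PATCH2) [CompactSpace X] [T2Space X] {J : End d X} (hJ : IsAlmostComplex J)
    {K N : Set X} (hK : IsClosed K) (hNK : N ⊆ K) (hN : NullX (d := d) N)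
    {σ : Form d X 2} (hσ : SmoothOff σ K) (hσc : IsDOff σ 0 K)
    (hL : ∀ z : X, ∀ p ∈ (chartAt (E d) z).target, LCn (pb (chartAt (E d) z).symm σ) p)
    (hM : ∀ z : X, ∀ p ∈ (chartAt (E d) z).target, Mor a (pb (chartAt (E d) z).symm σ) p)
    (hHol : ∀ z ∈ K, Hol γ J z)
    (hpos : ∀ x, x ∉ N → ∀ v : TangentSpace (𝓡 d) x, 0 ≤ σ x ![v, J x v])
    (hthin : ∀ z, ¬ UTAt σ J N z →
      ThinAt2 0 0 J (connectedComponentIn {x | ¬ UTAt σ J N x} z) z)
    {U : Set X} (hU : IsOpen U) (hKU : K ⊆ U) :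
    ∃ (α : Form d X 1) (η w : Form d X 2), IsSmooth α ∧ IsSmooth η ∧ IsD α η ∧ IsSmooth w ∧
      IsClosedForm w ∧ (∀ x, TamesAt w J x) ∧ ∀ x, x ∉ U → w x = (σ + η) x := by
  classical
  have had : a ≤ d := by
    have : (1 : ℝ) ≤ d := by exact_mod_cast hd
    linarith
  obtain ⟨m, F, hF, -, hFi⟩ := exists_embedding_euclidean_of_compact (I := 𝓡 d) (M := X)
  have hFc : IsClosed {x | ¬ UTAt σ J N x} :=
    (isOpen_UTAt hI hF hFi σ J N).isClosed_compl
  have hne : ∃ v : E d, v ≠ 0 := by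
    have : Nontrivial (E d) := by
      have : Nonempty (Fin d) := ⟨⟨0, hd⟩⟩
      infer_instance
    exact exists_ne 0
  have hD2 : D2 (0 : Form d X 2) 0 J {x | ¬ UTAt σ J N x} = {x | ¬ UTAt σ J N x} := by
    apply Subset.antisymm
    · exact fun x hx => hx.1
    · intro x hx
      obtain ⟨v, hv⟩ := hne
      exact ⟨hx, v, hv, rfl, rfl⟩
  obtain ⟨α, η, hpair, hη⟩ := level2 Pool.Agent.Y484.SY.t_GEN Pool.Agent.Y108.SY.t_PERT2
    Pool.Agent.Y925.SY.t_PLANAR hJ (σ := 0) (θ := 0) IsSmooth.zero IsSmooth.zero hFc (by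
      rw [hD2]
      exact hthin)
  obtain ⟨hα, hηs, hαη, hηc⟩ := hpair.props Pool.Agent.Y484.SY.t_GEN
  obtain ⟨s, hs, hUT⟩ := globL ha hI hQ F hF hFi J hJ σ η K N hσ hσc hL hM hηs hηc hpos (by
    intro x
    by_cases h : UTAt σ J N x
    · exact Or.inl h
    · exact Or.inr fun v hv => hη x h v hv rfl rfl)
  -- the regularization
  choose! W hWo hWz hW using fun z (hz : z ∈ K) =>
    stepL (X := X) ha haγ hγ had hI hSm hPa hF hFi hJ hU (hKU hz) (hHol z hz)
  have hfin : ∀ t : Finset X, (∀ z ∈ t, z ∈ K) → ∃ w : Form d X 2,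
      UL F J a w (K \ ⋃ z ∈ t, W z) (N \ ⋃ z ∈ t, W z) ∧ ∀ x, x ∉ U → w x = (σ + s • η) x := by
    intro t
    induction t using Finset.induction_on with
    | empty =>
      intro _
      refine ⟨σ + s • η, ?_, fun x _ => rfl⟩
      have : K \ ⋃ z ∈ (∅ : Finset X), W z = K := by simp
      have h2 : N \ ⋃ z ∈ (∅ : Finset X), W z = N := by simp
      rw [this, h2]
      exact hUT
    | insert a t ha ih =>
      intro ht
      obtain ⟨w, hw, hwU⟩ := ih fun z hz => ht z (Finset.mem_insert_of_mem hz)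
      have hop : IsOpen (⋃ z ∈ t, W z) :=
        isOpen_biUnion fun z hz => hWo z (ht z (Finset.mem_insert_of_mem hz))
      have hcl : IsClosed (K \ ⋃ z ∈ t, W z) := by
        rw [sdiff_eq]
        exact hK.inter hop.isClosed_compl
      obtain ⟨w', hw', hwU'⟩ := hW a (ht a (Finset.mem_insert_self a t)) _ _ w hcl
        (sdiff_subset_sdiff_left hNK)
        (fun x₀ => measure_mono_null (inter_subset_inter_right _ (preimage_mono sdiff_subset))
          (hN x₀)) hw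
      refine ⟨w', ?_, fun x hx => (hwU' x hx).trans (hwU x hx)⟩
      have h1 : ∀ S : Set X, S \ ⋃ z ∈ insert a t, W z = (S \ ⋃ z ∈ t, W z) \ W a := by
        intro S
        rw [Finset.set_biUnion_insert, union_comm, sdiff_sdiff_left]
        rfl
      rw [h1, h1]
      exact hw'
  obtain ⟨t, htK, htc⟩ := hK.isCompact.elim_nhds_subcover W
    (fun z hz => (hWo z hz).mem_nhds (hWz z hz))
  obtain ⟨w, hw, hwU⟩ := hfin t htK
  have hempty : K \ ⋃ z ∈ t, W z = ∅ := by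
    rw [sdiff_eq_empty]
    exact htc
  have hempty' : N \ ⋃ z ∈ t, W z = ∅ := by
    rw [← subset_empty_iff, ← hempty]
    exact sdiff_subset_sdiff_left hNK
  rw [hempty, hempty'] at hw
  obtain ⟨c, hc, hwc⟩ := hw.pos
  refine ⟨s • α, s • η, w, hα.smul s, hηs.smul s, hαη.smul s,
    fun V φ hV hφ => hw.smooth V φ hV hφ fun p _ => notMem_empty _,
    fun V φ hV hφ => hw.closed V φ hV hφ fun p _ => notMem_empty _, fun x v hv => ?_, hwU⟩
  refine lt_of_lt_of_le ?_ (hwc x (notMem_empty _) v)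
  have h1 : 0 < nm F x v := by
    refine lt_of_le_of_ne (norm_nonneg _) fun h => hv ?_
    have h2 : (mfderiv (𝓡 d) (𝓡 m) F x v : E m) = 0 := norm_eq_zero.1 h.symm
    apply hFi x
    rw [map_zero]
    exact h2
  positivity

end

end Pool.Agent.U896.SV
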